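import Pool.Agent.H519R3.RS.LUS
import Pool.Agent.Results.MP_19ffc6_ag.DiagonalSystems

/-!
MP_3029eb_ag: local uniformization for the local rings, of every dimension, of the irreducible
components of the schemes defined by arbitrary systems of diagonal equations
`∑ i, c j i * x i ^ n i = b j` (arbitrary coefficients, arbitrary positive exponents) over a perfect
field of characteristic `p`, of their normalizations, and of the other affine varieties with the
same function field which are integral over a ring generated by Laurent monomials in the
coordinates.

The resolution of these varieties is the theorem MP_19ffc6_ag.DiagonalSystems; local uniformization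
follows with the valuative criterion of properness.
-/

set_option autoImplicit false

open AlgebraicGeometry CategoryTheory MvPolynomial Pool.Agent.H519R3.RS
open Pool.Agent.Results.MP_19ffc6_ag.DiagonalSystems (coordinate)

namespace Pool.Agent.Results.MP_3029eb_ag.DiagonalSystemsLU

/-- All local rings of `Spec A` admit local uniformization: for every prime ideal `Q` of `A` and
the localization `R` of `A` at `Q`, every valuation of the field of fractions of `R` centred on `R`
can be uniformized on a finitely generated `R`-algebra. -/
def LocalRingsAdmitLU (A : Type) [CommRing A] : Prop :=
  ∀ (Q : Ideal A) [Q.IsPrime] (R : Type) [CommRing R] [IsLocalRing R] [Algebra A R]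
    [IsLocalization.AtPrime R Q], AdmitsLU R

/-- Let `k` be a perfect field of characteristic `p`, let `n i ≥ 1` be arbitrary exponents, let
`c j i, b j ∈ k` be arbitrary, and let `P` be a minimal prime ideal over the ideal generated by the
polynomials `f j = ∑ i, c j i * x i ^ n i - b j`, so that `P` defines an irreducible component of
the subscheme of affine space given by the equations `f j = 0`. Then the local rings of this
irreducible component at all of its points admit local uniformization. More generally, this holds
for all affine varieties `Spec A` with the same function field such that `A` is integral over a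
subring generated by finitely many Laurent monomials in the coordinate functions `x i` (for example
for the normalization of the irreducible component). -/
theorem result (p : ℕ) [Fact p.Prime] (k : Type) [Field k] [PerfectField k] [CharP k p]
    (N q : ℕ) (n : Fin N → ℕ) (hn : ∀ i, n i ≠ 0) (c : Fin q → Fin N → k) (b : Fin q → k)
    (P : Ideal (MvPolynomial (Fin N) k)) [P.IsPrime]
    (hP : P ∈ (Ideal.span (Set.range fun j => ∑ i, C (c j i) * X i ^ n i - C (b j))).minimalPrimes) :
    LocalRingsAdmitLU (MvPolynomial (Fin N) k ⧸ P) ∧
    ∀ (A : Type) [CommRing A] [IsDomain A] [Algebra k A] [Algebra.FiniteType k A]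
      [Algebra A (FractionRing (MvPolynomial (Fin N) k ⧸ P))]
      [IsScalarTower k A (FractionRing (MvPolynomial (Fin N) k ⧸ P))]
      [IsFractionRing A (FractionRing (MvPolynomial (Fin N) k ⧸ P))] (S : Finset A),
      (∀ a ∈ S, ∃ e : Fin N → ℤ, algebraMap A _ a = ∏ i, coordinate P i ^ e i) →
      (∀ a : A, IsIntegral (Algebra.adjoin k (S : Set A)) a) → LocalRingsAdmitLU A := by
  have key := Pool.Agent.Results.MP_19ffc6_ag.DiagonalSystems.result p k N q n hn c b P hP
  refine ⟨?_, ?_⟩
  · intro Q _ R _ _ _ _
    exact admitsLU_of_res (k := k) key.1.2 Q R
  · intro A _ _ _ _ _ _ _ S hS hA Q _ R _ _ _ _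
    exact admitsLU_of_res (k := k) (key.2 A S hS hA).2 Q R

end Pool.Agent.Results.MP_3029eb_ag.DiagonalSystemsLU
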