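import Pool.Agent.H519R3.RS.LUS
import Pool.Agent.Results.MP_b525bf_ag.GroupSchemeTowers

/-!
MP_3029eb_ag: local uniformization for the local rings, of every dimension, of the iterated
quotients of (possibly singular) affine varieties of characteristic `p` by finite subgroup schemes
of the additive group, automorphisms of order `p` and `p`-closed derivations, followed by a quotient
by a finite diagonalizable group scheme.

The resolution of these quotients is the theorem MP_b525bf_ag.GroupSchemeTowers; local
uniformization follows with the valuative criterion of properness. The starting file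
MP_3029eb_ag.WildTowers is the case without the subgroup schemes `α_(p ^ r) × A` and without the
diagonalizable group scheme.
-/

set_option autoImplicit false

open AlgebraicGeometry CategoryTheory Pool.Agent.H920R2 Pool.Agent.H519R3.RS Pool.Agent.X229.RS
  Pool.Agent.Y177.Dg

namespace Pool.Agent.Results.MP_3029eb_ag.GroupSchemeTowersLU

/-- Let `B` be a domain over a field `k` of characteristic `p` and `F` a decreasing multiplicative
filtration of `B` by ideals, with `F 0 = B` and `F 1 ≠ 0`, such that
* either the weighted blowup of `F` is smooth (`Good`): the extended Rees algebra of `F`, the sum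
  of the `F d T ^ d` for `d > 0` and of the `B T ^ d` for `d ≤ 0`, is of finite type and its
  localizations at the nonzero elements `b T ^ d` with `d > 0` are smooth over `k` (here `B` may
  be singular),
* or `B` is smooth and `F` is a regular weighted centre.
Let `B = C 0 ⊇ C 1 ⊇ ... ⊇ C n` be a chain of subalgebras such that `C (i + 1)` is
* the ring of invariants of an automorphism `σ` of `C i` with `σ ^ p = 1` (`SStep`), or
* the ring of constants of a `p`-closed derivation of `C i` (`DStep`), or
* the ring of invariants of `C i` under a finite subgroup scheme `α_(p ^ r) × A` (`A` a finite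
  additive subgroup of `k`, `r ≥ 0` arbitrary) of the additive group, for an action of the whole
  additive group on `Spec (C i)` given by a coaction `ρ : C i → C i [X]` (`GStep`),
which raises the weights of the filtration induced by `F` on `C i`, has its fixed points in the
centre and has a leading form without zeros outside the vertex. Let further a finite diagonalizable
group scheme act on `Spec (C n)`, that is, let `C n` be graded by a finite abelian group `Λ`, such
that the induced filtration is homogeneous, and let `D` be the part of degree zero of `C n`, the
coordinate ring of the quotient. Then the local ring `R` of the quotient at an arbitrary point (the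
localization of `D` at an arbitrary prime ideal `Q`) admits local uniformization. -/
theorem result (p : ℕ) [Fact p.Prime] (k : Type) [Field k] [CharP k p] (B : Type)
    [CommRing B] [IsDomain B] [Algebra k B] (F : ℕ → Ideal B) (hF : IsFilt F) (hne : F 1 ≠ ⊥)
    (hG : Good k hF ∨ (Algebra.Smooth k B ∧ RegularWeightedCentre k F))
    (n : ℕ) (C : ℕ → Subalgebra k B) (hC0 : C 0 = ⊤)
    (hC : ∀ i < n, SStep p F (C i) (C (i + 1)) ∨ DStep p F (C i) (C (i + 1)) ∨
      GStep p F (C i) (C (i + 1)))
    (Λ : Type) [AddCommGroup Λ] [Finite Λ] [DecidableEq Λ] (𝒜 : Λ → Submodule k (C n))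
    [GradedAlgebra 𝒜] (hom : ∀ d, (restr F (C n) d).IsHomogeneous 𝒜)
    (D : Subalgebra k B) (hD : ∀ b, b ∈ D ↔ ∃ h : b ∈ C n, (⟨b, h⟩ : C n) ∈ 𝒜 0)
    (Q : Ideal D) [Q.IsPrime] (R : Type) [CommRing R] [IsLocalRing R] [Algebra D R]
    [IsLocalization.AtPrime R Q] : AdmitsLU R := by
  obtain ⟨D', hD', -, key⟩ := Pool.Agent.Results.MP_b525bf_ag.GroupSchemeTowers.result p k B F hF
    hne hG n C hC0 hC Λ 𝒜 hom
  obtain rfl : D = D' := by
    ext b
    rw [hD, hD']
  exact admitsLU_of_res (k := k) key Q R

end Pool.Agent.Results.MP_3029eb_ag.GroupSchemeTowersLU
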