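import Pool.Agent.H519R3.RS.LUS
import Pool.Agent.Results.MP_19ffc6_ag.WildBrieskornPham

/-!
MP_3029eb_ag: local uniformization for the local rings, of every dimension, of wild Brieskorn-Pham
hypersurfaces: sums of `p`-powers of monomials with a private variable, with coefficients which are
products of arbitrary polynomials on a product of affine planes, over perfect fields of
characteristic `p`.

The resolution of these varieties is the theorem MP_19ffc6_ag.WildBrieskornPham; local
uniformization follows with the valuative criterion of properness.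
-/

set_option autoImplicit false

open AlgebraicGeometry CategoryTheory MvPolynomial Pool.Agent.H519R3.RS Pool.Agent.X326.TSb

namespace Pool.Agent.Results.MP_3029eb_ag.WildBrieskornPhamLU

/-- Let `k` be a perfect field of characteristic `p` and let `f` be the polynomial
`c₀ * (g₀ * y ^ β₀) ^ (p ^ r) + ∑ i, c i * (g i * y ^ β i * x i ^ a i) ^ (p ^ v i)`
in the variables `s 1, t 1, ..., s m, t m, y 1, ..., y n, x 1, ..., x N`, where `g₀` and the `g i`
are products of nonzero polynomials in `s l, t l` for `l = 1, ..., m`, the exponents `β` are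
arbitrary, `c i ≠ 0`, the `a i` are not divisible by `p`, and `v i ≤ r`. Suppose that `f` has at
least two terms (`N ≥ 2`, or `N = 1` and `c₀ ≠ 0`) and is a prime element. Then the local ring `R`
of the hypersurface `f = 0` at an arbitrary point (the localization of its coordinate ring at an
arbitrary prime ideal `Q`) admits local uniformization. For `m = n = 0` this is the hypersurface
`c 1 * x 1 ^ d 1 + ... + c N * x N ^ d N + c₀ = 0` with arbitrary exponents `d i = p ^ v i * a i`. -/
theorem result (p : ℕ) [Fact p.Prime] (k : Type) [Field k] [PerfectField k] [CharP k p]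
    (m n N r : ℕ) (h1N : 1 ≤ N) (c₀ : k) (hN : 2 ≤ N ∨ c₀ ≠ 0) (c : Fin N → k)
    (hc : ∀ i, c i ≠ 0) (v : Fin N → ℕ) (hv : ∀ i, v i ≤ r)
    (a : Fin N → ℕ) (ha : ∀ i, ¬ p ∣ a i) (β₀ : Fin n → ℕ) (β : Fin N → Fin n → ℕ)
    (g₀ : Fin m → MvPolynomial (Fin 2) k) (hg₀ : ∀ l, g₀ l ≠ 0)
    (g : Fin N → Fin m → MvPolynomial (Fin 2) k) (hg : ∀ i l, g i l ≠ 0)
    (hf : Prime (equation p r v β₀ β a c₀ c g₀ g))
    (Q : Ideal (MvPolynomial (VV m n N) k ⧸ Ideal.span {equation p r v β₀ β a c₀ c g₀ g}))
    [Q.IsPrime] (R : Type) [CommRing R] [IsLocalRing R]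
    [Algebra (MvPolynomial (VV m n N) k ⧸ Ideal.span {equation p r v β₀ β a c₀ c g₀ g}) R]
    [IsLocalization.AtPrime R Q] : AdmitsLU R := by
  have hpr : (Ideal.span {equation p r v β₀ β a c₀ c g₀ g}).IsPrime :=
    (Ideal.span_singleton_prime hf.ne_zero).2 hf
  have hdom : IsDomain (MvPolynomial (VV m n N) k ⧸
      Ideal.span {equation p r v β₀ β a c₀ c g₀ g}) := Ideal.Quotient.isDomain _
  have key := Pool.Agent.Results.MP_19ffc6_ag.WildBrieskornPham.result p k m n N r h1N c₀ hN c hc
    v hv a ha β₀ β g₀ hg₀ g hg hf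
  exact admitsLU_of_res (k := k) key.2 Q R

end Pool.Agent.Results.MP_3029eb_ag.WildBrieskornPhamLU
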