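import Pool.Agent.H519R3.RS.LUS
import Pool.Agent.Results.MP_b525bf_ag.WreathQuotients

/-!
MP_3029eb_ag: local uniformization for the local rings of the quotients of powers of affine
varieties of characteristic `p` by the Sylow `p`-subgroups of the symmetric groups and by the
permutation groups which are obtained from cyclic groups of order dividing `p ^ 2 * m` by direct
and wreath products.

The resolution of these quotients is the theorem MP_b525bf_ag.WreathQuotients; local uniformization
follows with the valuative criterion of properness. The starting file MP_3029eb_ag.PowerQuotients
is the case of a smooth variety and a cyclic group of order `p`.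
-/

set_option autoImplicit false

open AlgebraicGeometry CategoryTheory TensorProduct Pool.Agent.H920R2 Pool.Agent.H519R3.RS
open Pool.Agent.Results.MP_b525bf_ag.WreathQuotients (invariants HasSmoothBlowUp IsTower)

namespace Pool.Agent.Results.MP_3029eb_ag.WreathQuotientsLU

/-- Let `p` be a prime, `k` a field of characteristic `p` and `W = Spec A` an affine variety over
`k` which has a resolution of singularities by the blowing-up of an ideal, for instance a smooth
affine variety. Let `G` be a group of permutations of `1, …, n`, and suppose that

* `G` is a Sylow `p`-subgroup of the symmetric group, or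
* `G` is obtained by direct products and wreath products from cyclic permutation groups of orders
  dividing `p ^ 2 * m`, and `k` contains a primitive `m`-th root of unity.

If the power `W ^ n` is integral, for instance if `k` is algebraically closed, then the local ring
`R` of the quotient `W ^ n / G` at an arbitrary point, i.e. the localization of the ring of
invariants of the group `G` of permutations of the factors at an arbitrary prime ideal `Q`, admits
local uniformization. -/
theorem result (p : ℕ) [Fact p.Prime] (k : Type) [Field k] [CharP k p] (A : Type)
    [CommRing A] [IsDomain A] [Algebra k A] [Algebra.FiniteType k A] (hA : HasSmoothBlowUp k A)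
    (n : ℕ) (hdom : IsAlgClosed k ∨ IsDomain (⨂[k] _ : Fin n, A))
    (G : Subgroup (Equiv.Perm (Fin n)))
    (hG : (∃ S : Sylow p (Equiv.Perm (Fin n)), G = S) ∨
      ∃ (m : ℕ) (ω : k), 0 < m ∧ IsPrimitiveRoot ω m ∧ IsTower (p ^ 2 * m) (Fin n) G)
    (Q : Ideal (invariants k A G)) [Q.IsPrime] (R : Type) [CommRing R] [IsLocalRing R]
    [Algebra (invariants k A G) R] [IsLocalization.AtPrime R Q] : AdmitsLU R := by
  have hdomB : IsDomain (⨂[k] _ : Fin n, A) := by
    rcases hdom with h | h
    · exact isDomain_pi n fun _ => A
    · exact h
  have key := Pool.Agent.Results.MP_b525bf_ag.WreathQuotients.result p k A hA n hdom G hG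
  exact admitsLU_of_res (k := k) key.2 Q R

end Pool.Agent.Results.MP_3029eb_ag.WreathQuotientsLU
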